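import Pool.Agent.Helper92.BO.GoalsA

/-!
# Log-supermodularity of the partition function

The four functions theorem on the line, by induction on the list of vertices.
-/

namespace Pool.Agent.Helper9.BO

open MeasureTheory Filter Topology Function
open Pool.Agent.Helper92.BO

/-- The integrand, extended by zero. -/
noncomputable def FF (G : SimpleGraph ℕ) (l : ℝ) (L : List ℕ) (v : ℕ) (b : ℕ → ℝ) : ℝ → ℝ :=
  Set.indicator (Set.Ioc 0 (b v)) (fun x => psiR l x * ZR G l L (cut G v (1 - x) b))

theorem zr_cons (G : SimpleGraph ℕ) (l : ℝ) (L : List ℕ) (v : ℕ) (b : ℕ → ℝ) (hb : 0 ≤ b v) :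
    ZR G l (v :: L) b = ∫ x, FF G l L v b x := by
  unfold FF
  rw [integral_indicator measurableSet_Ioc]
  rw [ZR, intervalIntegral.integral_of_le hb]

theorem in01_cut (G : SimpleGraph ℕ) (L : List ℕ) (v : ℕ) (b : ℕ → ℝ) (hb : In01 L b) (c : ℝ)
    (h0 : 0 ≤ c) : In01 L (cut G v c b) := by
  intro u hu
  have h := hb u hu
  unfold cut
  split_ifs
  · exact ⟨le_min h.1 h0, le_trans (min_le_left _ _) h.2⟩
  · exact h

theorem in01_tail {L : List ℕ} {v : ℕ} {b : ℕ → ℝ} (hb : In01 (v :: L) b) : In01 L b :=
  fun u hu => hb u (List.mem_cons_of_mem _ hu)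

theorem psiR_nonneg (l : ℝ) (hl : 0 < l) (x : ℝ) : 0 ≤ psiR l x := by
  unfold psiR
  split_ifs
  · exact zero_le_one
  · exact hl.le

theorem ff_int (hC : CntStmt) (G : SimpleGraph ℕ) (l : ℝ) (L : List ℕ) (v : ℕ) (b : ℕ → ℝ)
    (hb : In01 (v :: L) b) : Integrable (FF G l L v b) := by
  have h := (hC G (l : ℂ) l L v b (in01_tail hb)).2.2.2
  have hv := hb v List.mem_cons_self
  have h1 : IntegrableOn (fun x => psiR l x * ZR G l L (cut G v (1 - x) b)) (Set.Ioc 0 1) := by
    rw [intervalIntegrable_iff_integrableOn_Ioc_of_le zero_le_one] at h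
    exact h
  have h2 := h1.mono_set (Set.Ioc_subset_Ioc_right hv.2)
  exact h2.integrable_indicator measurableSet_Ioc

theorem ff_nonneg (hP : PosStmt) (G : SimpleGraph ℕ) (l : ℝ) (hl : 0 < l) (hl1 : l ≤ 1)
    (L : List ℕ) (v : ℕ) (b : ℕ → ℝ) (hb : In01 (v :: L) b) (x : ℝ) : 0 ≤ FF G l L v b x := by
  unfold FF
  apply Set.indicator_nonneg
  intro y hy
  have hv := hb v List.mem_cons_self
  apply mul_nonneg (psiR_nonneg l hl y)
  apply ((hP G l L (cut G v (1 - y) b) hl hl1).1 _).1
  apply in01_cut G L v b (in01_tail hb)
  linarith [hy.2, hv.2]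

theorem psiR_maxmin (l : ℝ) (x x' : ℝ) :
    psiR l x * psiR l x' = psiR l (max x x') * psiR l (min x x') := by
  rcases le_total x x' with h | h
  · rw [max_eq_right h, min_eq_left h, mul_comm]
  · rw [max_eq_left h, min_eq_right h]

theorem step (hF : FouStmt) (hP : PosStmt) (hC : CntStmt) (G : SimpleGraph ℕ) (l : ℝ)
    (hl : 0 < l) (hl1 : l ≤ 1) (L : List ℕ) (v : ℕ) (b b' B3 B4 : ℕ → ℝ)
    (hb : In01 (v :: L) b) (hb' : In01 (v :: L) b') (h3 : In01 (v :: L) B3)
    (h4 : In01 (v :: L) B4) (h3v : B3 v = max (b v) (b' v)) (h4v : B4 v = min (b v) (b' v))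
    (hkey : ∀ x x' : ℝ, 0 < x → x ≤ b v → 0 < x' → x' ≤ b' v →
      ZR G l L (cut G v (1 - x) b) * ZR G l L (cut G v (1 - x') b') ≤
        ZR G l L (cut G v (1 - max x x') B3) * ZR G l L (cut G v (1 - min x x') B4)) :
    ZR G l (v :: L) b * ZR G l (v :: L) b' ≤ ZR G l (v :: L) B3 * ZR G l (v :: L) B4 := by
  have e := fun c (hc : In01 (v :: L) c) => zr_cons G l L v c (hc v List.mem_cons_self).1
  rw [e b hb, e b' hb', e B3 h3, e B4 h4]
  have hn := fun c (hc : In01 (v :: L) c) => ff_nonneg hP G l hl hl1 L v c hc
  have hi := fun c (hc : In01 (v :: L) c) => ff_int hC G l L v c hc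
  apply hF (FF G l L v b) (FF G l L v b') (FF G l L v B3) (FF G l L v B4) (hn b hb) (hn b' hb')
    (hn B3 h3) (hn B4 h4) (hi b hb) (hi b' hb') (hi B3 h3) (hi B4 h4)
  intro x x'
  by_cases hx : x ∈ Set.Ioc 0 (b v)
  · by_cases hx' : x' ∈ Set.Ioc 0 (b' v)
    · have hX : max x x' ∈ Set.Ioc 0 (B3 v) := by
        rw [h3v]
        exact ⟨lt_of_lt_of_le hx.1 (le_max_left _ _), max_le_max hx.2 hx'.2⟩
      have hm : min x x' ∈ Set.Ioc 0 (B4 v) := by
        rw [h4v]
        exact ⟨lt_min hx.1 hx'.1, min_le_min hx.2 hx'.2⟩
      unfold FF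
      rw [Set.indicator_of_mem hx, Set.indicator_of_mem hx', Set.indicator_of_mem hX,
        Set.indicator_of_mem hm]
      have hk := hkey x x' hx.1 hx.2 hx'.1 hx'.2
      calc psiR l x * ZR G l L (cut G v (1 - x) b) * (psiR l x' * ZR G l L (cut G v (1 - x') b'))
          = (psiR l x * psiR l x') *
            (ZR G l L (cut G v (1 - x) b) * ZR G l L (cut G v (1 - x') b')) := by ring
        _ ≤ (psiR l x * psiR l x') * (ZR G l L (cut G v (1 - max x x') B3) *
            ZR G l L (cut G v (1 - min x x') B4)) :=
            mul_le_mul_of_nonneg_left hk (mul_nonneg (psiR_nonneg l hl x) (psiR_nonneg l hl x'))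
        _ = _ := by
            rw [psiR_maxmin]
            ring
    · have : FF G l L v b' x' = 0 := by
        unfold FF
        exact Set.indicator_of_notMem hx' _
      rw [this, mul_zero]
      exact mul_nonneg (hn B3 h3 _) (hn B4 h4 _)
  · have : FF G l L v b x = 0 := by
      unfold FF
      exact Set.indicator_of_notMem hx _
    rw [this, zero_mul]
    exact mul_nonneg (hn B3 h3 _) (hn B4 h4 _)

theorem in01_jn (s : ℕ → ℝ) (L : List ℕ) (b b' : ℕ → ℝ) (hb : In01 L b) (hb' : In01 L b') :
    In01 L (jn s b b') := by
  intro u hu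
  have h := hb u hu
  have h' := hb' u hu
  unfold jn
  split_ifs
  · exact ⟨le_trans h.1 (le_max_left _ _), max_le h.2 h'.2⟩
  · exact ⟨le_min h.1 h'.1, le_trans (min_le_left _ _) h.2⟩

theorem in01_mt (s : ℕ → ℝ) (L : List ℕ) (b b' : ℕ → ℝ) (hb : In01 L b) (hb' : In01 L b') :
    In01 L (Helper92.BO.mt s b b') := by
  intro u hu
  have h := hb u hu
  have h' := hb' u hu
  unfold Helper92.BO.mt
  split_ifs
  · exact ⟨le_min h.1 h'.1, le_trans (min_le_left _ _) h.2⟩
  · exact ⟨le_trans h.1 (le_max_left _ _), max_le h.2 h'.2⟩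

theorem min_aux (p q x x' : ℝ) :
    min (min p (1 - x)) (min q (1 - x')) ≤ min (min p q) (1 - max x x') := by
  apply le_min
  · exact le_min (le_trans (min_le_left _ _) (min_le_left _ _))
      (le_trans (min_le_right _ _) (min_le_left _ _))
  · rcases le_total x x' with h | h
    · rw [max_eq_right h]
      exact le_trans (min_le_right _ _) (min_le_right _ _)
    · rw [max_eq_left h]
      exact le_trans (min_le_left _ _) (min_le_right _ _)

theorem max_aux (p q x x' : ℝ) :
    max (min p (1 - x)) (min q (1 - x')) ≤ min (max p q) (1 - min x x') := by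
  apply le_min
  · exact max_le_max (min_le_left _ _) (min_le_left _ _)
  · apply max_le
    · exact le_trans (min_le_right _ _) (by linarith [min_le_left x x'])
    · exact le_trans (min_le_right _ _) (by linarith [min_le_right x x'])

theorem lsm (hF : FouStmt) (hM : MonStmt) (hP : PosStmt) (hC : CntStmt) : LsmStmt := by
  intro G s l hs hl hl1 L
  induction L with
  | nil =>
    intro b b' _ _
    simp [ZR]
  | cons v L ih =>
    intro b b' hb hb'
    have hbL := in01_tail hb
    have hbL' := in01_tail hb'
    have hbv := hb v List.mem_cons_self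
    have hbv' := hb' v List.mem_cons_self
    have hj := in01_jn s (v :: L) b b' hb hb'
    have hm := in01_mt s (v :: L) b b' hb hb'
    rcases hs.pm v with hv | hv
    · apply step hF hP hC G l hl hl1 L v b b' (jn s b b') (Helper92.BO.mt s b b') hb hb' hj hm
      · unfold jn
        rw [if_pos (by rw [hv]; exact one_pos)]
      · unfold Helper92.BO.mt
        rw [if_pos (by rw [hv]; exact one_pos)]
      · intro x x' hx hxb hx' hxb'
        have hX1 : max x x' ≤ 1 := max_le (hxb.trans hbv.2) (hxb'.trans hbv'.2)
        have hm1 : min x x' ≤ 1 := le_trans (min_le_left _ _) (hxb.trans hbv.2)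
        have i1 : In01 L (cut G v (1 - x) b) :=
          in01_cut G L v b hbL _ (by linarith [hxb, hbv.2])
        have i2 : In01 L (cut G v (1 - x') b') :=
          in01_cut G L v b' hbL' _ (by linarith [hxb', hbv'.2])
        have i3 : In01 L (cut G v (1 - max x x') (jn s b b')) :=
          in01_cut G L v _ (in01_tail hj) _ (by linarith)
        have i4 : In01 L (cut G v (1 - min x x') (Helper92.BO.mt s b b')) :=
          in01_cut G L v _ (in01_tail hm) _ (by linarith)
        have j1 := in01_jn s L _ _ i1 i2
        have j2 := in01_mt s L _ _ i1 i2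
        refine le_trans (ih _ _ i1 i2) ?_
        apply mul_le_mul
        · apply hM G l L _ _ hl hl1 j1 i3
          intro u hu
          by_cases ha : G.Adj v u
          · have hsu : s u = -1 := by
              have := hs.alt v u ha
              linarith
            have hns : ¬ 0 < s u := by rw [hsu]; norm_num
            simp only [jn, cut, if_pos ha, if_neg hns]
            exact min_aux _ _ _ _
          · simp only [jn, cut, if_neg ha]
            exact le_refl _
        · apply hM G l L _ _ hl hl1 j2 i4
          intro u hu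
          by_cases ha : G.Adj v u
          · have hsu : s u = -1 := by
              have := hs.alt v u ha
              linarith
            have hns : ¬ 0 < s u := by rw [hsu]; norm_num
            simp only [Helper92.BO.mt, cut, if_pos ha, if_neg hns]
            exact max_aux _ _ _ _
          · simp only [Helper92.BO.mt, cut, if_neg ha]
            exact le_refl _
        · exact ((hP G l L _ hl hl1).1 j2).1
        · exact ((hP G l L _ hl hl1).1 i3).1
    · have hns : ¬ 0 < s v := by rw [hv]; norm_num
      rw [mul_comm (ZR G l (v :: L) (jn s b b'))]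
      apply step hF hP hC G l hl hl1 L v b b' (Helper92.BO.mt s b b') (jn s b b') hb hb' hm hj
      · unfold Helper92.BO.mt
        rw [if_neg hns]
      · unfold jn
        rw [if_neg hns]
      · intro x x' hx hxb hx' hxb'
        have hX1 : max x x' ≤ 1 := max_le (hxb.trans hbv.2) (hxb'.trans hbv'.2)
        have hm1 : min x x' ≤ 1 := le_trans (min_le_left _ _) (hxb.trans hbv.2)
        have i1 : In01 L (cut G v (1 - x) b) :=
          in01_cut G L v b hbL _ (by linarith [hxb, hbv.2])
        have i2 : In01 L (cut G v (1 - x') b') :=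
          in01_cut G L v b' hbL' _ (by linarith [hxb', hbv'.2])
        have i3 : In01 L (cut G v (1 - max x x') (Helper92.BO.mt s b b')) :=
          in01_cut G L v _ (in01_tail hm) _ (by linarith)
        have i4 : In01 L (cut G v (1 - min x x') (jn s b b')) :=
          in01_cut G L v _ (in01_tail hj) _ (by linarith)
        have j1 := in01_jn s L _ _ i1 i2
        have j2 := in01_mt s L _ _ i1 i2
        refine le_trans (ih _ _ i1 i2) ?_
        rw [mul_comm]
        apply mul_le_mul
        · apply hM G l L _ _ hl hl1 j2 i3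
          intro u hu
          by_cases ha : G.Adj v u
          · have hsu : s u = 1 := by
              have := hs.alt v u ha
              linarith
            have hps : 0 < s u := by rw [hsu]; norm_num
            simp only [Helper92.BO.mt, cut, if_pos ha, if_pos hps]
            exact min_aux _ _ _ _
          · simp only [Helper92.BO.mt, cut, if_neg ha]
            exact le_refl _
        · apply hM G l L _ _ hl hl1 j1 i4
          intro u hu
          by_cases ha : G.Adj v u
          · have hsu : s u = 1 := by
              have := hs.alt v u ha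
              linarith
            have hps : 0 < s u := by rw [hsu]; norm_num
            simp only [jn, cut, if_pos ha, if_pos hps]
            exact max_aux _ _ _ _
          · simp only [jn, cut, if_neg ha]
            exact le_refl _
        · exact ((hP G l L _ hl hl1).1 j1).1
        · exact ((hP G l L _ hl hl1).1 i3).1

end Pool.Agent.Helper9.BO
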